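import Pool.Agent.H55.PR.AnQ

/-!
# The order at the centre of the product of four twists of a newform of level `2 ^ r`
-/

set_option autoImplicit false

open UpperHalfPlane MatrixGroups CongruenceSubgroup Filter Topology

namespace Pool.Agent.H94BQ

open Pool.Agent.W97.TW Pool.Agent.H55.PR

/-- **Even order at the centre.** -/
theorem evenL4 {d₁ d₂ d₃ d₄ : ℕ} (h₁ : InClass d₁) (h₂ : InClass d₂) (h₃ : InClass d₃)
    (h₄ : InClass d₄) {r : ℕ} {k : ℤ} (hk : 0 < k)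
    {f : CuspForm (Gamma0 (2 ^ r) : Subgroup (GL (Fin 2) ℝ)) k} (hf : IsNewform (2 ^ r) k f) :
    ∃ L : ℂ → ℂ, Differentiable ℂ L ∧
      (∀ s : ℂ, 3 / 2 < s.re → HasProd (fun p : Nat.Primes =>
        (EF (2 ^ r) k f p (jacobiSym (p : ℕ) d₁ : ℂ) s *
          EF (2 ^ r) k f p (jacobiSym (p : ℕ) d₂ : ℂ) s *
          (EF (2 ^ r) k f p (jacobiSym (p : ℕ) d₃ : ℂ) s *
          EF (2 ^ r) k f p (jacobiSym (p : ℕ) d₄ : ℂ) s))⁻¹) (L s)) ∧
      ∃ m : ℕ, Even m ∧ analyticOrderAt L (1 / 2) = m := by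
  obtain ⟨L, g1, g2, m, g3, g4⟩ := evenL h₁ h₂ hk hf
  obtain ⟨L', g1', g2', m', g3', g4'⟩ := evenL h₃ h₄ hk hf
  refine ⟨L * L', g1.mul g1', fun s hs => ?_, m + m', g3.add g3', ?_⟩
  · have h5 := (g2 s hs).mul (g2' s hs)
    refine h5.congr_fun fun p => ?_
    rw [mul_inv (EF (2 ^ r) k f p (jacobiSym (p : ℕ) d₁ : ℂ) s *
          EF (2 ^ r) k f p (jacobiSym (p : ℕ) d₂ : ℂ) s)]
  · rw [analyticOrderAt_mul (g1.analyticAt _) (g1'.analyticAt _), g4, g4']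
    push_cast
    rfl

end Pool.Agent.H94BQ
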