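import Pool.Agent.H94BQ.Sel

/-!
# The Selmer groups over a quadratic field and over a biquadratic field
-/

set_option autoImplicit false
set_option linter.unusedSectionVars false

namespace Pool.Agent.H94BQ

open Matrix IsLocalRing Pool.Agent.H55.PR

/-- the Galois group of the field `ℚ(t, t')` -/
noncomputable abbrev KK (t t' : QBar) : Subgroup GQ := GF t ⊓ GF t'

/-- the same group as a subgroup of the group of `ℚ(t)` -/
noncomputable abbrev HH (t t' : QBar) : Subgroup (GF t) := (GF t').subgroupOf (GF t)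

/-- the isomorphism of the two groups -/
noncomputable def up (t t' : QBar) (y : KK t t') : HH t t' := ⟨⟨y.1, y.2.1⟩, y.2.2⟩

/-- its inverse -/
noncomputable def down (t t' : QBar) (x : HH t t') : KK t t' := ⟨x.1.1, x.1.2, x.2⟩

lemma cont_up (t t' : QBar) : Continuous (up t t') :=
  (continuous_subtype_val.subtype_mk _).subtype_mk _

lemma cont_down (t t' : QBar) : Continuous (down t t') :=
  (continuous_subtype_val.comp continuous_subtype_val).subtype_mk _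

/-- the transport of functions -/
noncomputable def pb (E : Type) [Field E] (n : ℕ) (t t' : QBar) :
    (HH t t' → Fin n → E) →ₗ[E] (KK t t' → Fin n → E) :=
  LinearMap.funLeft E (Fin n → E) (up t t')

variable {A : Type} [CommRing A] [IsDomain A] [TopologicalSpace A] [IsTopologicalRing A]
  {E : Type} [Field E] [Algebra A E] [IsFractionRing A E] {n : ℕ}
  {ρ : GQ →* GL (Fin n) A}

variable (ρ) in
/-- the Selmer cocycles over `ℚ(t, t')` on the second group -/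
noncomputable def selT (s t t' : QBar) (D : Subgroup GQ) (L : Submodule E (D → Fin n → E)) :
    Submodule E (HH t t' → Fin n → E) := (selH ρ s (KK t t') D L).comap (pb E n t t')

variable {s t t' : QBar} {D : Subgroup GQ} {L : Submodule E (D → Fin n → E)}

variable (E ρ) in
/-- the representation on the Galois group of `ℚ(t)` -/
noncomputable def Mt (t : QBar) (hs : Sq s) : GF t →* Matrix (Fin n) (Fin n) E :=
  (Mh E ρ hs).comp (GF t).subtype

lemma Mt_apply (hs : Sq s) (σ : GF t) : Mt E ρ t hs σ = tw E ρ s σ := rfl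

/-- restriction -/
lemma resT {a : GF t → Fin n → E} (ha : a ∈ selH ρ s (GF t) D L) :
    res (HH t t') a ∈ selT ρ s t t' D L := by
  obtain ⟨h1, h2, h3, h4⟩ := ha
  refine ⟨fun σ τ => h1 ⟨σ.1, σ.2.1⟩ ⟨τ.1, τ.2.1⟩, ?_, fun p _ ι' hp => ?_, fun g => ?_⟩
  · exact h2.comp (φ := fun y : KK t t' => (⟨y.1, y.2.1⟩ : GF t))
      (continuous_subtype_val.subtype_mk _)
  · obtain ⟨v, hv⟩ := h3 p ι' hp
    exact ⟨v, fun σ hσ => hv ⟨σ.1, σ.2.1⟩ hσ⟩
  · obtain ⟨y, hy, hy'⟩ := h4 g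
    exact ⟨y, hy, fun δ h hh => hy' δ ⟨h.1, h.2.1⟩ hh⟩

/-- corestriction -/
lemma corT (h2' : (2 : E) ≠ 0) (hs : Sq s) (ht' : Sq t') (hi : (HH t t').index = 2)
    {c : GF t} (hc : c ∉ HH t t') (hDt : D ≤ GF t') {z : HH t t' → Fin n → E}
    (hz : z ∈ selT ρ s t t' D L) : cor (Mt E ρ t hs) (HH t t') c z ∈ selH ρ s (GF t) D L := by
  obtain ⟨h1, h2, h3, h4⟩ := hz
  have hM := Mh_apply E ρ hs
  have hMt : ∀ σ : GF t, Mt E ρ t hs σ = Mh E ρ hs (σ : GQ) := fun σ => rfl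
  have hC : z ∈ Coc (Mt E ρ t hs) (HH t t') := fun σ τ => h1 (down t t' σ) (down t t' τ)
  have h2z : Cont (A := A) E z := h2.comp (cont_down t t')
  have hopen : IsOpen (HH t t' : Set (GF t)) :=
    (isOpen_GF t').preimage continuous_subtype_val
  have hcoc := cor_coc hi hc hC
  refine ⟨fun σ τ => hcoc σ τ, ?_, fun p _ ι' hp => ?_, fun g => ?_⟩
  · refine cont_cor' hi hopen hc
      (R := (sgn s ((c⁻¹ : GF t) : GQ) : A) • (ρ ((c⁻¹ : GF t) : GQ) : Matrix (Fin n) (Fin n) A))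
      (fun i j => ?_) h2z
    rw [hMt, hM]
    unfold tw mat
    simp only [Matrix.smul_apply, Matrix.map_apply, smul_eq_mul, map_mul, map_intCast]
  · obtain ⟨v, hv⟩ := h3 p ι' hp
    obtain ⟨w, hw⟩ := h3 p (ι'.comp (((c⁻¹ : GF t) : GQ) : QBar →ₐ[ℚ] QBar)) hp
    obtain ⟨u, hu⟩ := cob_half (v := v + Mt E ρ t hs c⁻¹ *ᵥ w) (I := {σ : GF t | (σ : GQ) ∈ Inr ι'})
      h2' hi (fun σ h τ h' => inr_mul h h') hcoc (by
        intro σ hσ hσH
        have h5 : ((c * σ * c⁻¹ : GF t) : GQ) ∈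
            Inr (ι'.comp (((c⁻¹ : GF t) : GQ) : QBar →ₐ[ℚ] QBar)) := by
          have h6 := inr_conj' (g := ((c⁻¹ : GF t) : GQ)) hσ
          have e : (((c⁻¹ : GF t) : GQ))⁻¹ * (σ : GQ) * ((c⁻¹ : GF t) : GQ) =
              ((c * σ * c⁻¹ : GF t) : GQ) := by
            push_cast
            rw [inv_inv]
          rwa [e] at h6
        have e1 : z ⟨σ, hσH⟩ = tw E ρ s (σ : GQ) *ᵥ v - v := hv (down t t' ⟨σ, hσH⟩) hσ
        have e2 : z ⟨c * σ * c⁻¹, conj hi hc hσH⟩ = tw E ρ s ((c * σ * c⁻¹ : GF t) : GQ) *ᵥ w - w :=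
          hw (down t t' ⟨c * σ * c⁻¹, conj hi hc hσH⟩) h5
        rw [cor_mem hi hc z hσH, e1, e2, ← Mt_apply hs, ← Mt_apply hs]
        simp only [mulVec_add, mulVec_sub, mulVec_mulVec, ← map_mul]
        have e3 : c⁻¹ * (c * σ * c⁻¹) = σ * c⁻¹ := by group
        rw [e3]
        abel)
    exact ⟨u, fun σ hσ => hu σ hσ⟩
  · obtain ⟨y, hy, hy'⟩ := h4 g
    obtain ⟨w, hw, hw'⟩ := h4 (g * ((c⁻¹ : GF t) : GQ))
    refine ⟨y + w, L.add_mem hy hw, fun δ h hh => ?_⟩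
    have hmem : h ∈ HH t t' := by
      rw [Subgroup.mem_subgroupOf, mem_GF_sgn, hh, ht'.sgn_mul, ht'.sgn_mul,
        mem_GF_sgn.1 (hDt δ.2), mul_one, ← ht'.sgn_mul, inv_mul_cancel, Sq.sgn_one]
    have e1 : y δ = tw E ρ s g *ᵥ z ⟨h, hmem⟩ := hy' δ (down t t' ⟨h, hmem⟩) hh
    have e2 : w δ = tw E ρ s (g * ((c⁻¹ : GF t) : GQ)) *ᵥ z ⟨c * h * c⁻¹, conj hi hc hmem⟩ := by
      refine hw' δ (down t t' ⟨c * h * c⁻¹, conj hi hc hmem⟩) ?_
      show ((c * h * c⁻¹ : GF t) : GQ) = _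
      push_cast
      rw [hh]
      group
    rw [cor_mem hi hc z hmem, Pi.add_apply, e1, e2, ← hM, ← hM, hMt, mulVec_add, mulVec_mulVec,
      ← map_mul]

/-- the same space for the two twists -/
lemma selT_st (hs : Sq s) (ht' : Sq t') :
    selT (E := E) ρ (s * t') t t' D L = selT ρ s t t' D L := by
  have key : ∀ σ : KK t t', tw E ρ (s * t') σ = tw E ρ s σ := by
    intro σ
    rw [tw_st E ρ hs ht', mem_GF_sgn.1 σ.2.2]
    simp
  have key3 : ∀ g : GQ, ∃ x : E, ∀ v : Fin n → E, tw E ρ (s * t') g *ᵥ v = x • (tw E ρ s g *ᵥ v) ∧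
      tw E ρ s g *ᵥ v = x • (tw E ρ (s * t') g *ᵥ v) := by
    intro g
    refine ⟨(sgn t' g : E), fun v => ?_⟩
    rw [tw_st E ρ hs ht', smul_mulVec]
    refine ⟨rfl, ?_⟩
    rw [smul_smul, ← Int.cast_mul, Sq.sgn_sq]
    simp
  unfold selT
  congr 1
  ext z
  constructor
  · rintro ⟨h1, h2, h3, h4⟩
    refine ⟨fun σ τ => by rw [h1 σ τ, key], h2, fun p _ ι' hp => ?_, fun g => ?_⟩
    · obtain ⟨v, hv⟩ := h3 p ι' hp
      exact ⟨v, fun σ hσ => by rw [hv σ hσ, key]⟩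
    · obtain ⟨x, hx⟩ := key3 g
      obtain ⟨y, hy, hy'⟩ := h4 g
      refine ⟨x • y, L.smul_mem x hy, fun δ h hh => ?_⟩
      rw [Pi.smul_apply, hy' δ h hh, ← (hx _).2]
  · rintro ⟨h1, h2, h3, h4⟩
    refine ⟨fun σ τ => by rw [h1 σ τ, key], h2, fun p _ ι' hp => ?_, fun g => ?_⟩
    · obtain ⟨v, hv⟩ := h3 p ι' hp
      exact ⟨v, fun σ hσ => by rw [hv σ hσ, key]⟩
    · obtain ⟨x, hx⟩ := key3 g
      obtain ⟨y, hy, hy'⟩ := h4 g
      refine ⟨x • y, L.smul_mem x hy, fun δ h hh => ?_⟩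
      rw [Pi.smul_apply, hy' δ h hh, ← (hx _).1]

/-- the decomposition over the quadratic field -/
theorem decompT (h2 : (2 : E) ≠ 0) (hs : Sq s) (ht' : Sq t') (hi : (HH t t').index = 2)
    {c : GF t} (hc : c ∉ HH t t') (hDt' : D ≤ GF t') :
    Nonempty (Q (selT ρ s t t' D L) (Cob (Mt E ρ t hs) (HH t t')) ≃ₗ[E]
      Q (selH ρ s (GF t) D L) (Cob (Mh E ρ hs) (GF t)) ×
        Q (selH ρ (s * t') (GF t) D L) (Cob (Mh E ρ (hs.mul ht')) (GF t))) := by
  have key : Nonempty (Q (selT ρ s t t' D L) (Cob (Mt E ρ t hs) (HH t t')) ≃ₗ[E]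
      Q (selH ρ s (GF t) D L) (CobG (Mt E ρ t hs)) ×
        Q (selH ρ (s * t') (GF t) D L) (CobG (Mt E ρ t (hs.mul ht')))) := by
    refine equiv h2 hi hc ?_ ?_ ?_ ?_ ?_ ?_ ?_ ?_
    · intro σ hσ
      rw [Mt_apply, Mt_apply, tw_st E ρ hs ht', mem_GF_sgn.1 (Subgroup.mem_subgroupOf.1 hσ)]
      simp
    · intro σ hσ
      rw [Mt_apply, Mt_apply, tw_st E ρ hs ht', sgn_not (fun h => hσ (Subgroup.mem_subgroupOf.2 h))]
      simp
    · intro a ha
      exact ha.1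
    · intro a ha
      exact ha.1
    · intro a ha
      exact resT ha
    · intro a ha
      rw [← selT_st hs ht']
      exact resT ha
    · intro z hz
      exact corT h2 hs ht' hi hc hDt' hz
    · intro z hz
      rw [← selT_st hs ht'] at hz
      exact corT h2 (hs.mul ht') ht' hi hc hDt' hz
  exact key

end Pool.Agent.H94BQ
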