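import Pool.Agent.H94BQ.Bi
import Pool.Agent.H55.PR.Main

/-!
# Even parity over the real biquadratic fields `ℚ(√(pp'), √(qq'))`
-/

set_option autoImplicit false
set_option linter.unusedSectionVars false

namespace Pool.Agent.H94BQ

open Matrix IsLocalRing Pool.Agent.H55.PR
open Pool.Agent.H55.PR.PE

lemma arith_one {x a : ℕ} (h : x + a ≤ 1) (h' : Even (1 - (x + a))) : x + a = 1 := by
  rw [Nat.even_iff] at h'
  omega

lemma arith_four {k x a b c d : ℕ} (hk : k = 1) (h1 : x + a ≤ k) (h1' : Even (k - (x + a)))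
    (h2 : x + b ≤ k) (h2' : Even (k - (x + b))) (h3 : x + c ≤ k) (h3' : Even (k - (x + c)))
    (h4 : x + d ≤ k) (h4' : Even (k - (x + d))) :
    (a + b) + (c + d) = 0 ∨ (a + b) + (c + d) = 4 := by
  subst hk
  have e1 := arith_one h1 h1'
  have e2 := arith_one h2 h2'
  have e3 := arith_one h3 h3'
  have e4 := arith_one h4 h4'
  omega

/-- multiplication by a nonzero natural number does not change the character -/
lemma sgn_nat {x : QBar} {m : ℕ} (hm : m ≠ 0) (σ : GQ) : sgn ((m : QBar) * x) σ = sgn x σ := by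
  have h0 : (m : QBar) ≠ 0 := by exact_mod_cast hm
  have h1 : σ ((m : QBar) * x) = (m : QBar) * x ↔ σ x = x := by
    rw [map_mul, map_natCast]
    exact ⟨fun h => mul_left_cancel₀ h0 h, fun h => by rw [h]⟩
  unfold sgn
  by_cases h : σ x = x
  · rw [if_pos h, if_pos (h1.2 h)]
  · rw [if_neg h, if_neg (fun h' => h (h1.1 h'))]

lemma sq_nat {t : QBar} {m : ℕ} (hm : m ≠ 0) (ht : t ^ 2 = (m : QBar)) : Sq t := by
  refine ⟨?_, (m : ℚ), by rw [ht]; push_cast; ring⟩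
  rintro rfl
  have h1 : (m : QBar) = 0 := by linear_combination -ht
  exact hm (by exact_mod_cast h1)

/-- independent quadratic characters -/
lemma exists_c {t t' : QBar} (ht : Sq t) (ht' : Sq t') {c₁ c₂ : GQ} (h₁ : c₁ ∉ GF t')
    (h₂ : c₂ ∉ GF (t * t')) : ∃ c : GQ, c ∈ GF t ∧ c ∉ GF t' := by
  have e1 := sgn_not h₁
  have e2 := sgn_not h₂
  rw [ht.sgn_st ht'] at e2
  have key : ∀ c : GQ, sgn t c = 1 → sgn t' c = -1 → ∃ c : GQ, c ∈ GF t ∧ c ∉ GF t' := by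
    intro c g1 g2
    refine ⟨c, mem_GF_sgn.2 g1, fun h => ?_⟩
    rw [mem_GF_sgn.1 h] at g2
    norm_num at g2
  rcases Sq.sgn_or t c₁ with h | h
  · exact key c₁ h e1
  · rcases Sq.sgn_or t c₂ with h' | h'
    · rw [h', one_mul] at e2
      exact key c₂ h' e2
    · rw [h'] at e2
      refine key (c₁ * c₂) ?_ ?_
      · rw [ht.sgn_mul, h, h']
        norm_num
      · rw [ht'.sgn_mul, e1]
        linarith

lemma index_HH {t t' : QBar} (ht' : Sq t') {c : GF t} (hc : c ∉ HH t t') :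
    (HH t t').index = 2 := by
  rw [Subgroup.index_eq_two_iff]
  refine ⟨c, fun b => ?_⟩
  have hc' : (c : GQ) ∉ GF t' := fun h => hc (Subgroup.mem_subgroupOf.2 h)
  rw [xor_iff_iff_not, Subgroup.mem_subgroupOf, Subgroup.mem_subgroupOf, mem_GF_sgn, mem_GF_sgn,
    Subgroup.coe_mul, ht'.sgn_mul, sgn_not hc']
  rcases Sq.sgn_or t' (b : GQ) with h | h <;> rw [h] <;> norm_num

/-- the arithmetic of the four primes -/
structure Four (p p' q q' : ℕ) : Prop where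
  hp : p.Prime
  hp' : p'.Prime
  hq : q.Prime
  hq' : q'.Prime
  p5 : p % 8 = 5
  p5' : p' % 8 = 5
  q3 : q % 8 = 3
  q3' : q' % 8 = 3
  pne : p ≠ p'
  qne : q ≠ q'

namespace Four

variable {p p' q q' : ℕ} (h : Four p p' q q')

include h

lemma c1 : InClass (p * q) := Or.inr ⟨p, q, h.hp, h.hq, h.p5, h.q3, rfl⟩
lemma c2 : InClass (p' * q) := Or.inr ⟨p', q, h.hp', h.hq, h.p5', h.q3, rfl⟩
lemma c3 : InClass (p * q') := Or.inr ⟨p, q', h.hp, h.hq', h.p5, h.q3', rfl⟩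
lemma c4 : InClass (p' * q') := Or.inr ⟨p', q', h.hp', h.hq', h.p5', h.q3', rfl⟩

lemma sqfp : Squarefree (p * p') :=
  (Nat.squarefree_mul ((Nat.coprime_primes h.hp h.hp').2 h.pne)).2
    ⟨h.hp.prime.squarefree, h.hp'.prime.squarefree⟩

lemma sqfq : Squarefree (q * q') :=
  (Nat.squarefree_mul ((Nat.coprime_primes h.hq h.hq').2 h.qne)).2
    ⟨h.hq.prime.squarefree, h.hq'.prime.squarefree⟩

lemma nsq1 : ¬ IsSquare (p * p') := fun hh =>
  h.pne (sqf_eq h.hp.prime.squarefree h.hp'.prime.squarefree hh)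

lemma nsq2 : ¬ IsSquare (q * q') := fun hh =>
  h.qne (sqf_eq h.hq.prime.squarefree h.hq'.prime.squarefree hh)

lemma nsq3 : ¬ IsSquare (p * p' * (q * q')) := by
  intro hh
  have h1 := sqf_eq h.sqfp h.sqfq hh
  have h2 : p ∣ q * q' := by rw [← h1]; exact dvd_mul_right _ _
  have h5 := h.p5
  have h6 := h.q3
  have h7 := h.q3'
  rcases (Nat.Prime.dvd_mul h.hp).1 h2 with h3 | h3
  · have h4 := (Nat.prime_dvd_prime_iff_eq h.hp h.hq).1 h3
    omega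
  · have h4 := (Nat.prime_dvd_prime_iff_eq h.hp h.hq').1 h3
    omega

end Four

variable {A : Type} [CommRing A] [IsDomain A] [IsLocalRing A] [TopologicalSpace A]
  [IsTopologicalRing A] [Algebra ℤ_[2] A] [Module.Finite ℤ_[2] A] [Module.Free ℤ_[2] A]
  {E : Type} [Field E] [Algebra A E] [IsFractionRing A E]
  {n : ℕ} {ρ : GQ →* GL (Fin n) A}

/-- **Even parity over the biquadratic field.** -/
theorem evenK {p p' q q' : ℕ} (hF : Four p p' q q') {s t t' : QBar}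
    (hs : s ^ 2 = -((p * q : ℕ) : QBar)) (ht2 : t ^ 2 = ((p * p' : ℕ) : QBar))
    (ht2' : t' ^ 2 = ((q * q' : ℕ) : QBar)) (hA : IsAdic (maximalIdeal A))
    (hρ : Admissible ρ) {Ω : Matrix (Fin n) (Fin n) E} (hΩ : Symplectic E ρ Ω) {ι : Emb 2} {k : ℕ}
    {l : Fin k → Dec ι → Fin n → E} (hl : Lagrangian E ρ Ω ι l) :
    ∃ r : ℕ, Even r ∧ r ≤ 4 * k ∧ (k = 1 → r = 0 ∨ r = 4) ∧
      ∃ z : Fin r → KK t t' → Fin n → E,
      (∀ i, z i ∈ selH ρ s (KK t t') (Dec ι) (Lsp E ρ (Dec ι) l)) ∧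
      Independent E (fun σ : KK t t' => tw E ρ s σ) z ∧
      ∀ y ∈ selH ρ s (KK t t') (Dec ι) (Lsp E ρ (Dec ι) l),
        InSpan E (fun σ : KK t t' => tw E ρ s σ) z y := by
  have hp0 := hF.hp.ne_zero
  have hp0' := hF.hp'.ne_zero
  have hq0 := hF.hq.ne_zero
  have hq0' := hF.hq'.ne_zero
  have hpQ : (p : QBar) ≠ 0 := by exact_mod_cast hp0
  have hqQ : (q : QBar) ≠ 0 := by exact_mod_cast hq0
  -- the four square roots
  set s₂ : QBar := s * t / p with hs₂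
  set s₃ : QBar := s * t' / q with hs₃
  set s₄ : QBar := s * t' * t / ((p * q : ℕ) : QBar) with hs₄
  have e2 : s₂ ^ 2 = -((p' * q : ℕ) : QBar) := by
    rw [hs₂, div_pow, mul_pow, hs, ht2]
    push_cast
    field_simp
  have e3 : s₃ ^ 2 = -((p * q' : ℕ) : QBar) := by
    rw [hs₃, div_pow, mul_pow, hs, ht2']
    push_cast
    field_simp
  have e4 : s₄ ^ 2 = -((p' * q' : ℕ) : QBar) := by
    rw [hs₄, div_pow, mul_pow, mul_pow, hs, ht2', ht2]
    push_cast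
    field_simp
  have m2 : s * t = ((p : ℕ) : QBar) * s₂ := by
    rw [hs₂]
    field_simp
  have m3 : s * t' = ((q : ℕ) : QBar) * s₃ := by
    rw [hs₃]
    field_simp
  have m4 : s * t' * t = ((p * q : ℕ) : QBar) * s₄ := by
    rw [hs₄]
    push_cast
    field_simp
  have f1 : Pool.Agent.Z384.Fld (p * q) := hF.c1
  have f2 : Pool.Agent.Z384.Fld (p' * q) := hF.c2
  have f3 : Pool.Agent.Z384.Fld (p * q') := hF.c3
  have f4 : Pool.Agent.Z384.Fld (p' * q') := hF.c4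
  have q1 := sq_of f1.ne_zero hs
  have q2 := sq_of f2.ne_zero e2
  have q3 := sq_of f3.ne_zero e3
  have q4 := sq_of f4.ne_zero e4
  have ht : Sq t := sq_nat (mul_ne_zero hp0 hp0') ht2
  have ht' : Sq t' := sq_nat (mul_ne_zero hq0 hq0') ht2'
  have g2 : ∀ σ, sgn (s * t) σ = sgn s₂ σ := fun σ => by rw [m2, sgn_nat hp0]
  have g3 : ∀ σ, sgn (s * t') σ = sgn s₃ σ := fun σ => by rw [m3, sgn_nat hq0]
  have g4 : ∀ σ, sgn (s * t' * t) σ = sgn s₄ σ := fun σ => by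
    rw [m4, sgn_nat (mul_ne_zero hp0 hq0)]
  -- the decomposition groups
  have D1 := dec_le hs f1.mod ι
  have D2 := dec_le e2 f2.mod ι
  have D3 := dec_le e3 f3.mod ι
  have Dt : Dec ι ≤ GF t := by
    intro σ hσ
    have h1 := mem_GF_sgn.1 (D2 hσ)
    rw [← g2, q1.sgn_st ht, mem_GF_sgn.1 (D1 hσ), one_mul] at h1
    exact mem_GF_sgn.2 h1
  have Dt' : Dec ι ≤ GF t' := by
    intro σ hσ
    have h1 := mem_GF_sgn.1 (D3 hσ)
    rw [← g3, q1.sgn_st ht', mem_GF_sgn.1 (D1 hσ), one_mul] at h1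
    exact mem_GF_sgn.2 h1
  have Dst' : Dec ι ≤ GF (s * t') := by
    intro σ hσ
    rw [mem_GF_sgn, g3, mem_GF_sgn.1 (D3 hσ)]
  -- the elements of the Galois group
  obtain ⟨c, hc⟩ := exists_move ht2 hF.nsq1
  obtain ⟨c₁, hc₁⟩ := exists_move ht2' hF.nsq2
  have htt : (t * t') ^ 2 = ((p * p' * (q * q') : ℕ) : QBar) := by
    rw [mul_pow, ht2, ht2']
    push_cast
    ring
  obtain ⟨c₂, hc₂⟩ := exists_move htt hF.nsq3
  obtain ⟨c₀, hc₀, hc₀'⟩ := exists_c ht ht' hc₁ hc₂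
  have hcH : (⟨c₀, hc₀⟩ : GF t) ∉ HH t t' := fun h => hc₀' (Subgroup.mem_subgroupOf.1 h)
  have hi := index_HH ht' hcH
  have h2 := two_ne A E
  obtain ⟨eqT⟩ := decompT (ρ := ρ) (D := Dec ι) (L := Lsp E ρ (Dec ι) l) h2 q1 ht' hi hcH Dt'
  obtain ⟨eq1⟩ := decomp (ρ := ρ) h2 hρ.cont q1 ht hc D1 Dt
    (L := Lsp E ρ (Dec ι) l) (fun v => Lsp_cob _ _ v)
  obtain ⟨eq2⟩ := decomp (ρ := ρ) h2 hρ.cont (q1.mul ht') ht hc Dst' Dt
    (L := Lsp E ρ (Dec ι) l) (fun v => Lsp_cob _ _ v)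
  obtain ⟨-, F1, a1, b1⟩ := parityQ hF.c1 hs hA hρ hΩ hl q1
  obtain ⟨-, F2, a2, b2⟩ := parityQ hF.c2 e2 hA hρ hΩ hl q2
  obtain ⟨-, F3, a3, b3⟩ := parityQ hF.c3 e3 hA hρ hΩ hl q3
  obtain ⟨-, F4, a4, b4⟩ := parityQ hF.c4 e4 hA hρ hΩ hl q4
  have F2' := fin_congr (ρ := ρ) q2 (q1.mul ht) (fun σ => (g2 σ).symm) F2
  have F3' := fin_congr (ρ := ρ) q3 (q1.mul ht') (fun σ => (g3 σ).symm) F3
  have F4' := fin_congr (ρ := ρ) q4 ((q1.mul ht').mul ht) (fun σ => (g4 σ).symm) F4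
  have G1 : Module.Finite E (Q (selH ρ s (GF t) (Dec ι) (Lsp E ρ (Dec ι) l))
      (Cob (Mh E ρ q1) (GF t))) := Module.Finite.equiv eq1.symm
  have G2 : Module.Finite E (Q (selH ρ (s * t') (GF t) (Dec ι) (Lsp E ρ (Dec ι) l))
      (Cob (Mh E ρ (q1.mul ht')) (GF t))) := Module.Finite.equiv eq2.symm
  have GT : Module.Finite E (Q (selT ρ s t t' (Dec ι) (Lsp E ρ (Dec ι) l))
      (Cob (Mt E ρ t q1) (HH t t'))) := Module.Finite.equiv eqT.symm
  have n1 := eq1.finrank_eq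
  have n2 := eq2.finrank_eq
  have nT := eqT.finrank_eq
  rw [Module.finrank_prod] at n1 n2 nT
  rw [n1, n2] at nT
  have d2 : dimG ρ (q1.mul ht) (Dec ι) (Lsp E ρ (Dec ι) l) =
      dimG ρ q2 (Dec ι) (Lsp E ρ (Dec ι) l) := dimG_congr _ _ g2
  have d3 : dimG ρ (q1.mul ht') (Dec ι) (Lsp E ρ (Dec ι) l) =
      dimG ρ q3 (Dec ι) (Lsp E ρ (Dec ι) l) := dimG_congr _ _ g3
  have d4 : dimG ρ ((q1.mul ht').mul ht) (Dec ι) (Lsp E ρ (Dec ι) l) =
      dimG ρ q4 (Dec ι) (Lsp E ρ (Dec ι) l) := dimG_congr _ _ g4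
  have nr : Module.finrank E (Q (selT ρ s t t' (Dec ι) (Lsp E ρ (Dec ι) l))
      (Cob (Mt E ρ t q1) (HH t t'))) =
      (dimG ρ q1 (Dec ι) (Lsp E ρ (Dec ι) l) + dimG ρ q2 (Dec ι) (Lsp E ρ (Dec ι) l)) +
      (dimG ρ q3 (Dec ι) (Lsp E ρ (Dec ι) l) + dimG ρ q4 (Dec ι) (Lsp E ρ (Dec ι) l)) := by
    rw [← d2, ← d3, ← d4]
    exact nT
  obtain ⟨z, hz1, hz2, hz3⟩ := exists_family
    (S := selT ρ s t t' (Dec ι) (Lsp E ρ (Dec ι) l))
    (B := Cob (Mt E ρ t q1) (HH t t'))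
  refine ⟨_, ?_, ?_, ?_, fun i => pb E n t t' (z i), fun i => hz1 i, fun a ⟨v, hv⟩ => ?_,
    fun y hy => ?_⟩
  · rw [nr]
    rw [Nat.even_iff] at b1 b2 b3 b4 ⊢
    omega
  · rw [nr]
    omega
  · intro hk
    rw [nr]
    exact arith_four hk a1 b1 a2 b2 a3 b3 a4 b4
  · refine hz2 a ⟨v, fun σ => ?_⟩
    rw [Finset.sum_apply]
    exact hv (down t t' σ)
  · obtain ⟨a, v, hv⟩ := hz3 (fun σ => y (down t t' σ)) hy
    refine ⟨a, v, fun σ => ?_⟩
    have h5 := hv (up t t' σ)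
    rw [Pi.sub_apply, Finset.sum_apply] at h5
    have h6 : y σ - ∑ i, a i • z i (up t t' σ) = tw E ρ s σ *ᵥ v - v := h5
    show y σ = ∑ i, a i • z i (up t t' σ) + (tw E ρ s σ *ᵥ v - v)
    rw [← h6]
    abel

end Pool.Agent.H94BQ
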