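import Pool.Agent.H55.PR.Sel

/-!
# Selmer groups over a biquadratic field

The decomposition of the Selmer group over `ℚ(t, t')` in four Selmer groups over `ℚ`. Built on the files
`Pool.Agent.H55.PR` of helper55.
-/

set_option autoImplicit false
set_option linter.unusedSectionVars false

namespace Pool.Agent.H94BQ

open Matrix IsLocalRing Pool.Agent.H55.PR

/-- a cocycle which is a coboundary on the intersection of `I` with a subgroup of index two is a
coboundary on `I` -/
lemma cob_half {G E : Type} [Group G] [Field E] {n : ℕ} (h2 : (2 : E) ≠ 0)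
    {M : G →* Matrix (Fin n) (Fin n) E} {H : Subgroup G}
    (hi : H.index = 2) {I : Set G} (hI : ∀ σ ∈ I, ∀ τ ∈ I, σ * τ ∈ I) {a : G → Fin n → E}
    (ha : a ∈ CocG M) {v : Fin n → E} (hv : ∀ σ ∈ I, σ ∈ H → a σ = M σ *ᵥ v - v) :
    ∃ w : Fin n → E, ∀ σ ∈ I, a σ = M σ *ᵥ w - w := by
  by_cases hIH : ∃ c ∈ I, c ∉ H
  · obtain ⟨c, hcI, hcH⟩ := hIH
    -- the cocycle `b = a - coboundary of v`
    set b : G → Fin n → E := fun σ => a σ - (M σ *ᵥ v - v) with hb
    have hbm : ∀ σ τ, b (σ * τ) = b σ + M σ *ᵥ b τ := by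
      intro σ τ
      simp only [hb, ha σ τ, map_mul, mulVec_sub, mulVec_mulVec]
      abel
    have hb0 : ∀ σ ∈ I, σ ∈ H → b σ = 0 := by
      intro σ h1 h3
      simp only [hb, hv σ h1 h3, sub_self]
    set u := b c with hu
    have hcc : M c *ᵥ u = -u := by
      have h1 := hbm c c
      rw [hb0 (c * c) (hI c hcI c hcI) (by
        rw [Subgroup.mul_mem_iff_of_index_two hi])] at h1
      rw [← hu] at h1
      exact (neg_eq_of_add_eq_zero_right h1.symm).symm
    have hMu : ∀ σ ∈ I, σ ∈ H → M σ *ᵥ u = u := by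
      intro σ h1 h3
      have h4 : σ * c ∉ H := by
        rw [Subgroup.mul_mem_iff_of_index_two hi]
        tauto
      have h5 : c * (σ * c) ∈ H := by
        rw [Subgroup.mul_mem_iff_of_index_two hi]
        tauto
      have h6 := hbm c (σ * c)
      rw [hb0 _ (hI c hcI _ (hI σ h1 c hcI)) h5, hbm σ c, hb0 σ h1 h3, zero_add, ← hu,
        mulVec_mulVec, ← map_mul] at h6
      -- `M (c σ) u = - u`
      have h7 : M (c * σ) *ᵥ u = -u := (neg_eq_of_add_eq_zero_right h6.symm).symm
      have h14 : M c *ᵥ (M σ *ᵥ u) = M c *ᵥ u := by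
        rw [mulVec_mulVec, ← map_mul, h7, hcc]
      have h15 := congrArg (fun x => M c⁻¹ *ᵥ x) h14
      simp only [mulVec_mulVec, ← mul_assoc, ← map_mul, inv_mul_cancel, one_mul] at h15
      simpa using h15
    refine ⟨v - (2 : E)⁻¹ • u, fun σ hσ => ?_⟩
    by_cases h3 : σ ∈ H
    · rw [hv σ hσ h3, mulVec_sub, mulVec_smul, hMu σ hσ h3]
      abel
    · -- `σ c ∈ H`
      have h4 : σ * c ∈ H := by
        rw [Subgroup.mul_mem_iff_of_index_two hi]
        tauto
      have h5 : M (σ * c) *ᵥ u = u := hMu _ (hI σ hσ c hcI) h4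
      have h6 : M σ *ᵥ u = -u := by
        rw [map_mul, ← mulVec_mulVec, hcc, mulVec_neg] at h5
        rw [← h5, neg_neg, h5]
      have h7 : b σ = u := by
        have h8 := hbm σ c
        rw [hb0 _ (hI σ hσ c hcI) h4, ← hu, h6] at h8
        exact (sub_eq_zero.1 (by rw [sub_eq_add_neg]; exact h8.symm))
      have h8 : a σ = u + (M σ *ᵥ v - v) := by
        rw [← h7]
        simp only [hb, sub_add_cancel]
      have h9 : (2 : E)⁻¹ • u + (2 : E)⁻¹ • u = u := by
        rw [← add_smul, ← two_mul, mul_inv_cancel₀ h2, one_smul]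
      rw [h8, mulVec_sub, mulVec_smul, h6, smul_neg]
      conv_lhs => rw [← h9]
      abel
  · push Not at hIH
    exact ⟨v, fun σ hσ => hv σ hσ (hIH σ hσ)⟩

/-- corestriction preserves continuity -/
lemma cont_cor' {A : Type} [CommRing A] [IsDomain A] [TopologicalSpace A] [IsTopologicalRing A]
    {E : Type} [Field E] [Algebra A E] [IsFractionRing A E] {n : ℕ}
    {G : Type} [Group G] [TopologicalSpace G] [IsTopologicalGroup G] {H : Subgroup G}
    (hi : H.index = 2) (hH : IsOpen (H : Set G)) {c : G} (hc : c ∉ H)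
    {M : G →* Matrix (Fin n) (Fin n) E} (R : Matrix (Fin n) (Fin n) A)
    (hR : ∀ i j, M c⁻¹ i j = algebraMap A E (R i j)) {z : H → Fin n → E}
    (hz : Cont (A := A) E z) : Cont (A := A) E (cor M H c z) := by
  classical
  obtain ⟨a, b, ha, hb, hab⟩ := hz
  -- the extension of `b`
  set β : G → Fin n → A := fun σ => if h : σ ∈ H then b ⟨σ, h⟩ else
    if h' : σ * c⁻¹ ∈ H then b ⟨σ * c⁻¹, h'⟩ else 0 with hβ
  have hcl : IsClosed (H : Set G) := Subgroup.isClosed_of_isOpen H hH
  have hβc : Continuous β := by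
    rw [← continuousOn_univ, ← Set.union_compl_self (H : Set G)]
    refine ContinuousOn.union_of_isOpen ?_ ?_ hH hcl.isOpen_compl
    · rw [continuousOn_iff_continuous_domRestrict]
      have e : (H : Set G).domRestrict β = b := by
        funext σ
        show β σ = b σ
        rw [hβ]
        exact dif_pos σ.2
      rw [e]
      exact hb
    · rw [continuousOn_iff_continuous_domRestrict]
      have e : ((H : Set G)ᶜ).domRestrict β = fun σ : ((H : Set G)ᶜ : Set G) =>
          b ⟨(σ : G) * c⁻¹, mul_c hi hc σ.2⟩ := by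
        funext σ
        show β σ = _
        rw [hβ]
        show (if h : (σ : G) ∈ H then b ⟨σ, h⟩ else
          if h' : (σ : G) * c⁻¹ ∈ H then b ⟨σ * c⁻¹, h'⟩ else 0) = _
        have h0 : (σ : G) ∉ H := σ.2
        rw [dif_neg h0, dif_pos (mul_c hi hc h0)]
      rw [e]
      refine hb.comp ?_
      exact (continuous_subtype_val.mul continuous_const).subtype_mk _
  have hβz : ∀ σ i, algebraMap A E a * Pool.Agent.H55.PR.ext H c z σ i = algebraMap A E (β σ i) := by
    intro σ i
    rw [hβ]
    show _ = algebraMap A E ((if h : (σ : G) ∈ H then b ⟨σ, h⟩ else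
          if h' : (σ : G) * c⁻¹ ∈ H then b ⟨σ * c⁻¹, h'⟩ else 0) i)
    unfold Pool.Agent.H55.PR.ext
    split_ifs with h h'
    · exact hab _ _
    · exact hab _ _
    · simp
  refine ⟨a, fun σ i => β σ i + (R *ᵥ β (c * σ)) i, ha, ?_, fun σ i => ?_⟩
  · refine continuous_pi fun i => ((continuous_apply i).comp hβc).add ?_
    unfold Matrix.mulVec dotProduct
    refine continuous_finsetSum _ fun j _ => continuous_const.mul ?_
    exact (continuous_apply j).comp (hβc.comp (continuous_const.mul continuous_id))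
  · rw [cor_apply, Pi.add_apply, mul_add, hβz, map_add]
    congr 1
    unfold Matrix.mulVec dotProduct
    rw [map_sum, Finset.mul_sum]
    refine Finset.sum_congr rfl fun j _ => ?_
    rw [map_mul, ← hβz]
    show _ * (M c⁻¹ i j * _) = algebraMap A E (R i j) * _
    rw [hR]
    ring

end Pool.Agent.H94BQ
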