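import Pool.Agent.H94BQ.Sel

/-!
# The parity of the dimension of the Selmer group in towers of fields
-/

set_option autoImplicit false
set_option linter.unusedSectionVars false

namespace Pool.Agent.H94BQ.T

open Matrix IsLocalRing Pool.Agent.H55.PR

section linalg

variable {E W : Type} [Field E] [AddCommGroup W] [Module E W]

/-- a space with a complex structure has even dimension if `-1` is not a square -/
lemma even_of_sq [Module.Finite E W] (hE : ∀ x : E, x ^ 2 ≠ -1) (B : W →ₗ[E] W)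
    (hB : ∀ x, B (B x) = -x) : Even (Module.finrank E W) := by
  by_contra hodd
  rw [Nat.not_even_iff_odd] at hodd
  have h1 : B ∘ₗ B = (-1 : E) • (LinearMap.id : W →ₗ[E] W) := by
    refine LinearMap.ext fun x => ?_
    rw [LinearMap.comp_apply, hB]
    simp
  have h2 := congrArg LinearMap.det h1
  rw [LinearMap.det_comp, LinearMap.det_smul, LinearMap.det_id, hodd.neg_one_pow, mul_one] at h2
  exact hE _ (by rw [pow_two]; exact h2)

/-- the dimension and the dimension of the fixed space of the square of a map of order four have the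
same parity -/
lemma parity_four [Module.Finite E W] (h2 : (2 : E) ≠ 0) (hE : ∀ x : E, x ^ 2 ≠ -1)
    (A : W →ₗ[E] W) (hA : ∀ x, A (A (A (A x))) = x) :
    Even (Module.finrank E W + Module.finrank E (LinearMap.ker (A ∘ₗ A - LinearMap.id))) := by
  set P : W →ₗ[E] W := A ∘ₗ A with hP
  have hPP : ∀ x, P (P x) = x := fun x => hA x
  set K : Submodule E W := LinearMap.ker (P + LinearMap.id) with hK
  have hmemK : ∀ x, x ∈ K ↔ P x = -x := by
    intro x
    rw [hK, LinearMap.mem_ker, LinearMap.add_apply, LinearMap.id_apply]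
    constructor
    · intro h
      exact eq_neg_of_add_eq_zero_left h
    · intro h
      rw [h]
      abel
  have hrange : LinearMap.range (P - LinearMap.id) = K := by
    ext x
    rw [hmemK]
    constructor
    · rintro ⟨y, rfl⟩
      simp only [LinearMap.sub_apply, LinearMap.id_apply, map_sub, hPP]
      abel
    · intro hx
      refine ⟨-((2 : E)⁻¹ • x), ?_⟩
      rw [map_neg, map_smul, LinearMap.sub_apply, LinearMap.id_apply, hx, ← neg_add', smul_neg,
        neg_neg, ← two_smul E, smul_smul, inv_mul_cancel₀ h2, one_smul]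
  have hr := LinearMap.finrank_range_add_finrank_ker (P - LinearMap.id)
  rw [hrange] at hr
  have hAK : ∀ x ∈ K, A x ∈ K := by
    intro x hx
    rw [hmemK] at hx ⊢
    have h1 : P (A x) = A (P x) := rfl
    rw [h1, hx, map_neg]
  have hev : Even (Module.finrank E K) := by
    refine even_of_sq hE (A.restrict hAK) fun x => ?_
    apply Subtype.ext
    exact (hmemK x).1 x.2
  rw [← hr, add_assoc]
  exact hev.add ⟨_, rfl⟩

end linalg

variable {A : Type} [CommRing A] [IsDomain A] [TopologicalSpace A] [IsTopologicalRing A]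
  {E : Type} [Field E] [Algebra A E] [IsFractionRing A E] {n : ℕ}
  {ρ : GQ →* GL (Fin n) A}

/-- the matrix of `g` has entries in `A` -/
lemma entries {s : QBar} (hs : Sq s) (g : GQ) (i j : Fin n) :
    Mh E ρ hs g i j =
      algebraMap A E (((sgn s g : A) • (ρ g : Matrix (Fin n) (Fin n) A)) i j) := by
  rw [Mh_apply]
  unfold tw mat
  simp only [Matrix.smul_apply, Matrix.map_apply, smul_eq_mul, map_mul, map_intCast]

lemma cont_mulVec {G : Type} [TopologicalSpace G] {f : G → Fin n → E} (hf : Cont (A := A) E f)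
    {M : Matrix (Fin n) (Fin n) E} (R : Matrix (Fin n) (Fin n) A)
    (hR : ∀ i j, M i j = algebraMap A E (R i j)) : Cont (A := A) E (fun x => M *ᵥ f x) := by
  obtain ⟨a, b, ha, hb, hab⟩ := hf
  refine ⟨a, fun x => R *ᵥ b x, ha, ?_, fun x i => ?_⟩
  · refine continuous_pi fun i => ?_
    unfold Matrix.mulVec dotProduct
    exact continuous_finsetSum _ fun j _ => continuous_const.mul ((continuous_apply j).comp hb)
  · unfold Matrix.mulVec dotProduct
    rw [map_sum, Finset.mul_sum]
    refine Finset.sum_congr rfl fun j _ => ?_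
    rw [map_mul, ← hab]
    show _ * (M i j * _) = algebraMap A E (R i j) * _
    rw [hR]
    ring

section conj

variable (H : Subgroup GQ) [hn : H.Normal]

lemma cmem (g : GQ) (σ : H) : g⁻¹ * (σ : GQ) * g ∈ H := by
  have h := hn.conj_mem σ σ.2 g⁻¹
  rwa [inv_inv] at h

/-- the conjugate element -/
noncomputable def cc (g : GQ) (σ : H) : H := ⟨g⁻¹ * (σ : GQ) * g, cmem H g σ⟩

lemma cc_mul (g : GQ) (σ τ : H) : cc H g (σ * τ) = cc H g σ * cc H g τ := by
  apply Subtype.ext
  show g⁻¹ * ((σ : GQ) * τ) * g = (g⁻¹ * σ * g) * (g⁻¹ * τ * g)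
  group

lemma cc_comp (g h : GQ) (σ : H) : cc H h (cc H g σ) = cc H (g * h) σ := by
  apply Subtype.ext
  show h⁻¹ * (g⁻¹ * (σ : GQ) * g) * h = (g * h)⁻¹ * σ * (g * h)
  group

/-- conjugation of cocycles -/
noncomputable def cg (M : GQ →* Matrix (Fin n) (Fin n) E) (g : GQ) :
    (H → Fin n → E) →ₗ[E] (H → Fin n → E) where
  toFun z := fun σ => M g *ᵥ z (cc H g σ)
  map_add' z w := by
    funext σ
    simp only [Pi.add_apply, mulVec_add]
  map_smul' x z := by
    funext σ
    simp only [Pi.smul_apply, mulVec_smul, RingHom.id_apply]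

lemma cg_apply (M : GQ →* Matrix (Fin n) (Fin n) E) (g : GQ) (z : H → Fin n → E) (σ : H) :
    cg H M g z σ = M g *ᵥ z (cc H g σ) := rfl

lemma cg_comp (M : GQ →* Matrix (Fin n) (Fin n) E) (g h : GQ) (z : H → Fin n → E) :
    cg H M g (cg H M h z) = cg H M (g * h) z := by
  funext σ
  rw [cg_apply, cg_apply, cg_apply, cc_comp, mulVec_mulVec, ← map_mul]

lemma cg_cob (M : GQ →* Matrix (Fin n) (Fin n) E) (g : GQ) {z : H → Fin n → E}
    (hz : z ∈ Cob M H) : cg H M g z ∈ Cob M H := by
  obtain ⟨v, hv⟩ := hz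
  refine ⟨M g *ᵥ v, fun σ => ?_⟩
  rw [cg_apply, hv, mulVec_sub, mulVec_mulVec, mulVec_mulVec, ← map_mul, ← map_mul]
  have e : g * ((cc H g σ : H) : GQ) = (σ : GQ) * g := by
    show g * (g⁻¹ * (σ : GQ) * g) = σ * g
    group
  rw [e]

variable {s : QBar} {D : Subgroup GQ} {L : Submodule E (D → Fin n → E)}

lemma cg_mem (hs : Sq s) (g : GQ) {z : H → Fin n → E} (hz : z ∈ selH ρ s H D L) :
    cg H (Mh E ρ hs) g z ∈ selH ρ s H D L := by
  obtain ⟨h1, h2, h3, h4⟩ := hz
  have hM := Mh_apply E ρ hs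
  refine ⟨fun σ τ => ?_, ?_, fun p _ ι' hp => ?_, fun g' => ?_⟩
  · rw [cg_apply, cg_apply, cg_apply, cc_mul, h1, mulVec_add, ← hM, ← hM, mulVec_mulVec,
      mulVec_mulVec, ← map_mul, ← map_mul]
    have e : g * ((cc H g σ : H) : GQ) = (σ : GQ) * g := by
      show g * (g⁻¹ * (σ : GQ) * g) = σ * g
      group
    rw [e]
  · have hc : Continuous (cc H g) :=
      ((continuous_const.mul continuous_subtype_val).mul continuous_const).subtype_mk _
    exact cont_mulVec (h2.comp hc) _ (entries hs g)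
  · obtain ⟨v, hv⟩ := h3 p (ι'.comp ((g : GQ) : QBar →ₐ[ℚ] QBar)) hp
    refine ⟨Mh E ρ hs g *ᵥ v, fun σ hσ => ?_⟩
    rw [cg_apply, hv (cc H g σ) (inr_conj' hσ), ← hM, ← hM, mulVec_sub, mulVec_mulVec,
      mulVec_mulVec, ← map_mul, ← map_mul]
    have e : g * ((cc H g σ : H) : GQ) = (σ : GQ) * g := by
      show g * (g⁻¹ * (σ : GQ) * g) = σ * g
      group
    rw [e]
  · obtain ⟨y, hy, hy'⟩ := h4 (g' * g)
    refine ⟨y, hy, fun δ h hh => ?_⟩
    rw [hy' δ (cc H g h) (by
      show g⁻¹ * (h : GQ) * g = _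
      rw [hh]
      group), ← hM, ← hM, cg_apply, mulVec_mulVec, ← map_mul]

/-- an element of a larger group, on which the cocycle is defined, acts trivially on the class -/
lemma cg_triv {H' : Subgroup GQ} (hle : H ≤ H') (M : GQ →* Matrix (Fin n) (Fin n) E)
    {z : H' → Fin n → E} (hz : z ∈ Coc M H') (c : H') :
    cg H M c (fun σ : H => z ⟨σ, hle σ.2⟩) - (fun σ : H => z ⟨σ, hle σ.2⟩) ∈ Cob M H := by
  refine ⟨z c, fun σ => ?_⟩
  have hc1 : z (c⁻¹) = -(M ((c : GQ)⁻¹) *ᵥ z c) := by
    have h := hz c⁻¹ c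
    have h0 := hz 1 1
    rw [mul_one] at h0
    have h1 : z 1 = 0 := by
      have e : M ((1 : H') : GQ) = 1 := by
        rw [Subgroup.coe_one, map_one]
      rw [e, one_mulVec] at h0
      simpa using h0
    rw [inv_mul_cancel, h1] at h
    exact eq_neg_of_add_eq_zero_left h.symm
  have e1 : (⟨((cc H (c : GQ) σ : H) : GQ), hle (cc H (c : GQ) σ).2⟩ : H') =
      c⁻¹ * (⟨σ, hle σ.2⟩ * c) := by
    apply Subtype.ext
    show (c : GQ)⁻¹ * (σ : GQ) * c = (c : GQ)⁻¹ * ((σ : GQ) * c)
    group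
  rw [Pi.sub_apply, cg_apply]
  show M c *ᵥ z ⟨((cc H (c : GQ) σ : H) : GQ), _⟩ - z ⟨σ, hle σ.2⟩ = _
  rw [e1, hz, hz, hc1]
  simp only [mulVec_add, mulVec_neg, mulVec_mulVec, Subgroup.coe_inv, ← map_mul]
  have e2 : (c : GQ) * (c : GQ)⁻¹ = 1 := by group
  rw [e2, map_one, one_mulVec, one_mulVec, ← mul_assoc, e2, one_mul]
  abel

end conj

end Pool.Agent.H94BQ.T
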