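import Pool.Agent.H94BQ.Tow

/-!
# One step of a tower of fields
-/

set_option autoImplicit false
set_option linter.unusedSectionVars false

namespace Pool.Agent.H94BQ.T

open Matrix IsLocalRing Pool.Agent.H55.PR

variable {A : Type} [CommRing A] [IsDomain A] [TopologicalSpace A] [IsTopologicalRing A]
  {E : Type} [Field E] [Algebra A E] [IsFractionRing A E] {n : ℕ}
  {ρ : GQ →* GL (Fin n) A}

variable {s : QBar} {D : Subgroup GQ} {L : Submodule E (D → Fin n → E)}

variable {H H' : Subgroup GQ}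

/-- restriction -/
noncomputable def rst (E : Type) [Field E] (n : ℕ) (hle : H ≤ H') :
    (H' → Fin n → E) →ₗ[E] (H → Fin n → E) :=
  LinearMap.funLeft E (Fin n → E) (fun σ : H => (⟨σ, hle σ.2⟩ : H'))

lemma rst_apply (hle : H ≤ H') (z : H' → Fin n → E) (σ : H) :
    rst E n hle z σ = z ⟨σ, hle σ.2⟩ := rfl

lemma rst_mem (hle : H ≤ H') {z : H' → Fin n → E} (hz : z ∈ selH ρ s H' D L) :
    rst E n hle z ∈ selH ρ s H D L := by
  obtain ⟨h1, h2, h3, h4⟩ := hz
  refine ⟨fun σ τ => h1 ⟨σ.1, hle σ.2⟩ ⟨τ.1, hle τ.2⟩, ?_, fun p _ ι' hp => ?_, fun g => ?_⟩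
  · exact h2.comp (φ := fun y : H => (⟨y.1, hle y.2⟩ : H')) (continuous_subtype_val.subtype_mk _)
  · obtain ⟨v, hv⟩ := h3 p ι' hp
    exact ⟨v, fun σ hσ => hv ⟨σ.1, hle σ.2⟩ hσ⟩
  · obtain ⟨y, hy, hy'⟩ := h4 g
    exact ⟨y, hy, fun δ h hh => hy' δ ⟨h.1, hle h.2⟩ hh⟩

lemma rst_cob (hle : H ≤ H') {M : GQ →* Matrix (Fin n) (Fin n) E} {z : H' → Fin n → E}
    (hz : z ∈ Cob M H') : rst E n hle z ∈ Cob M H := by
  obtain ⟨v, hv⟩ := hz
  exact ⟨v, fun σ => hv ⟨σ.1, hle σ.2⟩⟩

/-- the element of the smaller group -/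
noncomputable def dn (x : H.subgroupOf H') : H := ⟨x.1.1, x.2⟩

lemma cont_dn : Continuous (dn (H := H) (H' := H')) :=
  (continuous_subtype_val.comp continuous_subtype_val).subtype_mk _

/-- corestriction -/
lemma cor_sel (h2' : (2 : E) ≠ 0) (hs : Sq s) (hn : H.Normal) (hH : IsOpen (H : Set GQ))
    (hi : (H.subgroupOf H').index = 2) {c : H'} (hc : c ∉ H.subgroupOf H') (hDH : D ≤ H)
    {z : H → Fin n → E} (hz : z ∈ selH ρ s H D L) :
    cor ((Mh E ρ hs).comp H'.subtype) (H.subgroupOf H') c (fun x => z (dn x)) ∈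
      selH ρ s H' D L := by
  obtain ⟨h1, h2, h3, h4⟩ := hz
  have hM := Mh_apply E ρ hs
  set N : H' →* Matrix (Fin n) (Fin n) E := (Mh E ρ hs).comp H'.subtype with hN
  have hMt : ∀ σ : H', N σ = Mh E ρ hs (σ : GQ) := fun σ => rfl
  set w : H.subgroupOf H' → Fin n → E := fun x => z (dn x) with hw
  have hC : w ∈ Coc N (H.subgroupOf H') := fun σ τ => h1 (dn σ) (dn τ)
  have h2z : Cont (A := A) E w := h2.comp cont_dn
  have hopen : IsOpen (H.subgroupOf H' : Set H') := hH.preimage continuous_subtype_val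
  have hcoc := cor_coc hi hc hC
  refine ⟨fun σ τ => hcoc σ τ, ?_, fun p _ ι' hp => ?_, fun g => ?_⟩
  · exact cont_cor' hi hopen hc _ (entries hs ((c⁻¹ : H') : GQ)) h2z
  · obtain ⟨v, hv⟩ := h3 p ι' hp
    obtain ⟨x, hx⟩ := h3 p (ι'.comp (((c⁻¹ : H') : GQ) : QBar →ₐ[ℚ] QBar)) hp
    obtain ⟨u, hu⟩ := cob_half (v := v + N c⁻¹ *ᵥ x) (I := {σ : H' | (σ : GQ) ∈ Inr ι'})
      h2' hi (fun σ h τ h' => inr_mul h h') hcoc (by
        intro σ hσ hσH
        have h5 : ((c * σ * c⁻¹ : H') : GQ) ∈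
            Inr (ι'.comp (((c⁻¹ : H') : GQ) : QBar →ₐ[ℚ] QBar)) := by
          have h6 := inr_conj' (g := ((c⁻¹ : H') : GQ)) hσ
          have e : (((c⁻¹ : H') : GQ))⁻¹ * (σ : GQ) * ((c⁻¹ : H') : GQ) =
              ((c * σ * c⁻¹ : H') : GQ) := by
            push_cast
            rw [inv_inv]
          rwa [e] at h6
        have e1 : w ⟨σ, hσH⟩ = N σ *ᵥ v - v := hv (dn ⟨σ, hσH⟩) hσ
        have e2 : w ⟨c * σ * c⁻¹, conj hi hc hσH⟩ = N (c * σ * c⁻¹) *ᵥ x - x :=
          hx (dn ⟨c * σ * c⁻¹, conj hi hc hσH⟩) h5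
        rw [cor_mem hi hc w hσH, e1, e2]
        simp only [mulVec_add, mulVec_sub, mulVec_mulVec, ← map_mul]
        have e3 : c⁻¹ * (c * σ * c⁻¹) = σ * c⁻¹ := by group
        rw [e3]
        abel)
    exact ⟨u, fun σ hσ => hu σ hσ⟩
  · obtain ⟨y, hy, hy'⟩ := h4 g
    obtain ⟨x, hx, hx'⟩ := h4 (g * ((c⁻¹ : H') : GQ))
    refine ⟨y + x, L.add_mem hy hx, fun δ h hh => ?_⟩
    have hmem : h ∈ H.subgroupOf H' := by
      rw [Subgroup.mem_subgroupOf, hh]
      have h5 := hn.conj_mem δ (hDH δ.2) g⁻¹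
      rwa [inv_inv] at h5
    have e1 : y δ = tw E ρ s g *ᵥ w ⟨h, hmem⟩ := hy' δ (dn ⟨h, hmem⟩) hh
    have e2 : x δ = tw E ρ s (g * ((c⁻¹ : H') : GQ)) *ᵥ w ⟨c * h * c⁻¹, conj hi hc hmem⟩ := by
      refine hx' δ (dn ⟨c * h * c⁻¹, conj hi hc hmem⟩) ?_
      show ((c * h * c⁻¹ : H') : GQ) = _
      push_cast
      rw [hh]
      group
    rw [cor_mem hi hc w hmem, Pi.add_apply, e1, e2, ← hM, ← hM, hMt, mulVec_add, mulVec_mulVec,
      ← map_mul]

/-- **One step**: the parity of the dimension does not change. -/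
theorem step (h2 : (2 : E) ≠ 0) (hE : ∀ x : E, x ^ 2 ≠ -1) (hs : Sq s) (hn : H.Normal)
    (hle : H ≤ H') (hH : IsOpen (H : Set GQ)) (hi : (H.subgroupOf H').index = 2) (hDH : D ≤ H)
    {g : GQ} (hg : g * g ∈ H') (hg' : g * g ∉ H)
    (hfin : Module.Finite E (Q (selH ρ s H D L) (Cob (Mh E ρ hs) H))) :
    Module.Finite E (Q (selH ρ s H' D L) (Cob (Mh E ρ hs) H')) ∧
    Even (Module.finrank E (Q (selH ρ s H D L) (Cob (Mh E ρ hs) H)) +
      Module.finrank E (Q (selH ρ s H' D L) (Cob (Mh E ρ hs) H'))) := by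
  set M := Mh E ρ hs with hMdef
  set c : H' := ⟨g * g, hg⟩ with hcdef
  have hc : c ∉ H.subgroupOf H' := fun h => hg' (Subgroup.mem_subgroupOf.1 h)
  have hcc : (g * g) * (g * g) ∈ H := by
    have h1 : c * c ∈ H.subgroupOf H' := by
      rw [Subgroup.mul_mem_iff_of_index_two hi]
    exact Subgroup.mem_subgroupOf.1 h1
  let Aop : Q (selH ρ s H D L) (Cob M H) →ₗ[E] Q (selH ρ s H D L) (Cob M H) :=
    qmap (cg H M g) (fun x hx => cg_mem H hs g hx) (fun x hx => cg_cob H M g hx)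
  have htriv : ∀ (z : H → Fin n → E), z ∈ selH ρ s H D L → ∀ h ∈ H, cg H M h z - z ∈ Cob M H := by
    intro z hz h hh
    have h1 : z ∈ Coc M H := hz.1
    exact cg_triv H (le_refl H) M h1 ⟨h, hh⟩
  have hA4 : ∀ x, Aop (Aop (Aop (Aop x))) = x := by
    intro x
    induction x using Submodule.Quotient.induction_on with | _ z => ?_
    refine qmk_eq ?_
    show cg H M g (cg H M g (cg H M g (cg H M g z))) - (z : H → Fin n → E) ∈ Cob M H
    rw [cg_comp, cg_comp, cg_comp]
    refine htriv z z.2 _ ?_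
    have e : g * g * g * g = g * g * (g * g) := by group
    rw [e]
    exact hcc
  let Rop : Q (selH ρ s H' D L) (Cob M H') →ₗ[E] Q (selH ρ s H D L) (Cob M H) :=
    qmap (rst E n hle) (fun x hx => rst_mem hle hx) (fun x hx => rst_cob hle hx)
  have hinj : Function.Injective Rop := by
    rw [injective_iff_map_eq_zero]
    intro x hx
    induction x using Submodule.Quotient.induction_on with | _ z => ?_
    have h1 : rst E n hle z ∈ Cob M H := by
      have h3 : (Submodule.Quotient.mk ⟨rst E n hle z, rst_mem hle z.2⟩ :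
        Q (selH ρ s H D L) (Cob M H)) = 0 := hx
      rw [Submodule.Quotient.mk_eq_zero] at h3
      exact h3
    obtain ⟨v, hv⟩ := h1
    rw [Submodule.Quotient.mk_eq_zero]
    show (z : H' → Fin n → E) ∈ Cob M H'
    have hz : (z : H' → Fin n → E) ∈ CocG (M.comp H'.subtype) := z.2.1
    obtain ⟨w, hw⟩ := cob_half (M := M.comp H'.subtype) (H := H.subgroupOf H') h2 hi
      (I := Set.univ) (fun _ _ _ _ => Set.mem_univ _) hz (v := v)
      (fun σ _ hσ => hv ⟨σ.1, Subgroup.mem_subgroupOf.1 hσ⟩)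
    exact ⟨w, fun σ => hw σ (Set.mem_univ _)⟩
  have hrange : LinearMap.range Rop = LinearMap.ker (Aop ∘ₗ Aop - LinearMap.id) := by
    ext x
    constructor
    · rintro ⟨y, rfl⟩
      induction y using Submodule.Quotient.induction_on with | _ z => ?_
      rw [LinearMap.mem_ker, LinearMap.sub_apply, LinearMap.id_apply, sub_eq_zero]
      refine qmk_eq ?_
      show cg H M g (cg H M g (rst E n hle z)) - rst E n hle z ∈ Cob M H
      rw [cg_comp]
      have hz : (z : H' → Fin n → E) ∈ Coc M H' := z.2.1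
      exact cg_triv H hle M hz c
    · intro hx
      induction x using Submodule.Quotient.induction_on with | _ z => ?_
      rw [LinearMap.mem_ker, LinearMap.sub_apply, LinearMap.id_apply] at hx
      have h1 : cg H M (g * g) z - (z : H → Fin n → E) ∈ Cob M H := by
        rw [← cg_comp]
        have h3 : (Submodule.Quotient.mk (⟨cg H M g (cg H M g z),
            cg_mem H hs g (cg_mem H hs g z.2)⟩ - z) : Q (selH ρ s H D L) (Cob M H)) = 0 := hx
        rw [Submodule.Quotient.mk_eq_zero] at h3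
        exact h3
      have h4 : (z : H → Fin n → E) - cg H M (g * g)⁻¹ z ∈ Cob M H := by
        have h5 := cg_cob H M (g * g)⁻¹ h1
        rw [map_sub, cg_comp] at h5
        have h6 : cg H M ((g * g)⁻¹ * (g * g)) (z : H → Fin n → E) = z := by
          funext σ
          rw [cg_apply, inv_mul_cancel, map_one, one_mulVec]
          have e : cc H 1 σ = σ := by
            apply Subtype.ext
            show (1 : GQ)⁻¹ * (σ : GQ) * 1 = σ
            group
          rw [e]
        rwa [h6] at h5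
      set z' := cor (M.comp H'.subtype) (H.subgroupOf H') c
        (fun x => (z : H → Fin n → E) (dn x)) with hz'
      have hz'm : z' ∈ selH ρ s H' D L := cor_sel h2 hs hn hH hi hc hDH z.2
      refine ⟨Submodule.Quotient.mk ⟨(2 : E)⁻¹ • z', Submodule.smul_mem _ _ hz'm⟩, ?_⟩
      refine qmk_eq ?_
      show rst E n hle ((2 : E)⁻¹ • z') - (z : H → Fin n → E) ∈ Cob M H
      have h7 : rst E n hle z' = (z : H → Fin n → E) + cg H M (g * g)⁻¹ z := by
        funext σ
        have hσ : (⟨σ, hle σ.2⟩ : H') ∈ H.subgroupOf H' := Subgroup.mem_subgroupOf.2 σ.2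
        rw [rst_apply, hz', cor_mem hi hc _ hσ, Pi.add_apply, cg_apply]
        have e : dn (⟨c * ⟨σ, hle σ.2⟩ * c⁻¹, conj hi hc hσ⟩ : H.subgroupOf H') =
            cc H (g * g)⁻¹ σ := by
          apply Subtype.ext
          show ((c * ⟨σ, hle σ.2⟩ * c⁻¹ : H') : GQ) = ((g * g)⁻¹)⁻¹ * (σ : GQ) * (g * g)⁻¹
          rw [inv_inv]
          rfl
        rw [e]
        rfl
      have h8 : rst E n hle ((2 : E)⁻¹ • z') - (z : H → Fin n → E) =
          -((2 : E)⁻¹ • ((z : H → Fin n → E) - cg H M (g * g)⁻¹ z)) := by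
        rw [map_smul, h7]
        have h9 : (z : H → Fin n → E) = (2 : E)⁻¹ • ((z : H → Fin n → E) + z) := by
          rw [← two_smul E, smul_smul, inv_mul_cancel₀ h2, one_smul]
        calc (2 : E)⁻¹ • ((z : H → Fin n → E) + cg H M (g * g)⁻¹ z) - (z : H → Fin n → E)
            = (2 : E)⁻¹ • ((z : H → Fin n → E) + cg H M (g * g)⁻¹ z) -
              (2 : E)⁻¹ • ((z : H → Fin n → E) + z) := by rw [← h9]
          _ = _ := by
            rw [← smul_sub, ← smul_neg]
            congr 1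
            abel
      rw [h8]
      exact Submodule.neg_mem _ (Submodule.smul_mem _ _ h4)
  have hfin' : Module.Finite E (Q (selH ρ s H' D L) (Cob M H')) := Module.Finite.of_injective Rop hinj
  refine ⟨hfin', ?_⟩
  have h9 := parity_four h2 hE Aop hA4
  rw [← hrange, LinearMap.finrank_range_of_inj hinj] at h9
  exact h9

end Pool.Agent.H94BQ.T
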