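import Pool.Agent.H94BQ.Tow2
import Pool.Agent.H94BQ.Main

/-!
# Towers of fields
-/

set_option autoImplicit false
set_option linter.unusedSectionVars false

namespace Pool.Agent.H94BQ.T

open Matrix IsLocalRing Pool.Agent.H55.PR
open Pool.Agent.H55.PR.PE

/-- `H ≤ H'` are the Galois groups of `F' ⊇ F` -/
structure Step (ι : Emb 2) (H' H : Subgroup GQ) : Prop where
  le : H ≤ H'
  normal : H.Normal
  isOpen : IsOpen (H : Set GQ)
  index : (H.subgroupOf H').index = 2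
  dec : Dec ι ≤ H
  square : ∃ g : GQ, g * g ∈ H' ∧ g * g ∉ H

variable {A : Type} [CommRing A] [IsDomain A] [TopologicalSpace A] [IsTopologicalRing A]
  {E : Type} [Field E] [Algebra A E] [IsFractionRing A E] {n : ℕ}
  {ρ : GQ →* GL (Fin n) A} {s : QBar} {ι : Emb 2} {k : ℕ}

/-- there is a basis of `r` classes -/
def Dim (ρ : GQ →* GL (Fin n) A) (s : QBar) (H : Subgroup GQ) (ι : Emb 2)
    (l : Fin k → Dec ι → Fin n → E) (r : ℕ) : Prop :=
  ∃ z : Fin r → H → Fin n → E,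
      (∀ i, z i ∈ selH ρ s H (Dec ι) (Lsp E ρ (Dec ι) l)) ∧
      Independent E (fun σ : H => tw E ρ s σ) z ∧
      ∀ y ∈ selH ρ s H (Dec ι) (Lsp E ρ (Dec ι) l), InSpan E (fun σ : H => tw E ρ s σ) z y

lemma dim_fin (hs : Sq s) {H : Subgroup GQ} {l : Fin k → Dec ι → Fin n → E} {r : ℕ}
    (h : Dim ρ s H ι l r) :
    Module.Finite E (Q (selH ρ s H (Dec ι) (Lsp E ρ (Dec ι) l)) (Cob (Mh E ρ hs) H)) ∧
    Module.finrank E (Q (selH ρ s H (Dec ι) (Lsp E ρ (Dec ι) l)) (Cob (Mh E ρ hs) H)) = r := by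
  obtain ⟨z, h1, h2, h3⟩ := h
  refine finrank_of z h1 (fun a ha => ?_) (fun y hy => ?_)
  · obtain ⟨v, hv⟩ := ha
    refine h2 a ⟨v, fun σ => ?_⟩
    have h5 := hv σ
    rw [Finset.sum_apply] at h5
    exact h5
  · obtain ⟨a, v, hv⟩ := h3 y hy
    refine ⟨a, v, fun σ => ?_⟩
    rw [Pi.sub_apply, Finset.sum_apply, hv σ]
    show ∑ i, a i • z i σ + (tw E ρ s σ *ᵥ v - v) - ∑ i, a i • z i σ = Mh E ρ hs σ *ᵥ v - v
    rw [Mh_apply]
    abel

lemma dim_of (hs : Sq s) {H : Subgroup GQ} {l : Fin k → Dec ι → Fin n → E}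
    (h : Module.Finite E (Q (selH ρ s H (Dec ι) (Lsp E ρ (Dec ι) l)) (Cob (Mh E ρ hs) H))) :
    Dim ρ s H ι l
      (Module.finrank E (Q (selH ρ s H (Dec ι) (Lsp E ρ (Dec ι) l)) (Cob (Mh E ρ hs) H))) := by
  obtain ⟨z, hz1, hz2, hz3⟩ := exists_family (E := E)
    (S := selH ρ s H (Dec ι) (Lsp E ρ (Dec ι) l))
    (B := Cob (Mh E ρ hs) H)
  refine ⟨z, hz1, fun a ⟨v, hv⟩ => ?_, fun y hy => ?_⟩
  · refine hz2 a ⟨v, fun σ => ?_⟩
    rw [Finset.sum_apply]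
    exact hv σ
  · obtain ⟨a, v, hv⟩ := hz3 y hy
    refine ⟨a, v, fun σ => ?_⟩
    have h5 := hv σ
    rw [Pi.sub_apply, Finset.sum_apply] at h5
    have h6 : y σ - ∑ i, a i • z i σ = tw E ρ s σ *ᵥ v - v := h5
    rw [← h6]
    abel

/-- the dimension is unique -/
lemma dim_unique (hs : Sq s) {H : Subgroup GQ} {l : Fin k → Dec ι → Fin n → E} {r r' : ℕ}
    (h : Dim ρ s H ι l r) (h' : Dim ρ s H ι l r') : r = r' := by
  rw [← (dim_fin hs h).2, ← (dim_fin hs h').2]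

/-- **The parity does not change in a tower.** -/
theorem tower (h2 : (2 : E) ≠ 0) (hE : ∀ x : E, x ^ 2 ≠ -1) (hs : Sq s) {H₀ H : Subgroup GQ}
    (hT : Relation.ReflTransGen (Step ι) H₀ H) {l : Fin k → Dec ι → Fin n → E} {r : ℕ}
    (h : Dim ρ s H ι l r) : ∃ r₀, Dim ρ s H₀ ι l r₀ ∧ Even (r + r₀) := by
  induction hT generalizing r with
  | refl => exact ⟨r, h, ⟨r, rfl⟩⟩
  | @tail H' H _ hst ih =>
    obtain ⟨g, hg, hg'⟩ := hst.square
    obtain ⟨h3, h4⟩ := dim_fin hs h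
    obtain ⟨h5, h6⟩ := step (ρ := ρ) h2 hE hs hst.normal hst.le hst.isOpen hst.index hst.dec hg hg' h3
    obtain ⟨r₀, h7, h8⟩ := ih (dim_of hs h5)
    refine ⟨r₀, h7, ?_⟩
    rw [h4] at h6
    rw [Nat.even_iff] at h6 h8 ⊢
    omega

section main

variable {A : Type} [CommRing A] [IsDomain A] [IsLocalRing A] [TopologicalSpace A]
  [IsTopologicalRing A] [Algebra ℤ_[2] A] [Module.Finite ℤ_[2] A] [Module.Free ℤ_[2] A]
  {E : Type} [Field E] [Algebra A E] [IsFractionRing A E]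
  {n : ℕ} {ρ : GQ →* GL (Fin n) A}

/-- towers over the real quadratic fields -/
theorem tower_two (hE : ∀ x : E, x ^ 2 ≠ -1) {d d' : ℕ} (hd : InClass d) (hd' : InClass d')
    (hne : d ≠ d') {s s' : QBar} (hs : s ^ 2 = -(d : QBar)) (hs' : s' ^ 2 = -(d' : QBar))
    (hA : IsAdic (maximalIdeal A)) (hρ : Admissible ρ) {Ω : Matrix (Fin n) (Fin n) E}
    (hΩ : Symplectic E ρ Ω) {ι : Emb 2} {k : ℕ} {l : Fin k → Dec ι → Fin n → E}
    (hl : Lagrangian E ρ Ω ι l) {H : Subgroup GQ}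
    (hT : Relation.ReflTransGen (Step ι) (GF (s * s')) H) {r : ℕ} (h : Dim ρ s H ι l r) :
    Even r := by
  have hF : Pool.Agent.Z384.Fld d := hd
  have hsq := sq_of hF.ne_zero hs
  obtain ⟨r₀, h1, h2⟩ := tower (two_ne A E) hE hsq hT h
  obtain ⟨r₁, g1, -, z, g2, g3, g4⟩ := even hd hd' hne hs hs' hA hρ hΩ hl
  have hD : Dim ρ s (GF (s * s')) ι l r₁ := by
    refine ⟨z, fun i => ?_, g3, fun y hy => ?_⟩
    · have h5 := g2 i
      exact ⟨h5.mul, h5.cont, h5.unramified, h5.two⟩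
    · obtain ⟨f1, f2, f3, f4⟩ := hy
      exact g4 y ⟨f1, f2, f3, f4⟩
  have e := dim_unique hsq h1 hD
  rw [e] at h2
  rw [Nat.even_iff] at g1 h2 ⊢
  omega

/-- towers over the real biquadratic fields -/
theorem tower_four (hE : ∀ x : E, x ^ 2 ≠ -1) {p p' q q' : ℕ} (hF : Four p p' q q')
    {s t t' : QBar} (hs : s ^ 2 = -((p * q : ℕ) : QBar)) (ht : t ^ 2 = ((p * p' : ℕ) : QBar))
    (ht' : t' ^ 2 = ((q * q' : ℕ) : QBar))
    (hA : IsAdic (maximalIdeal A)) (hρ : Admissible ρ) {Ω : Matrix (Fin n) (Fin n) E}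
    (hΩ : Symplectic E ρ Ω) {ι : Emb 2} {k : ℕ} {l : Fin k → Dec ι → Fin n → E}
    (hl : Lagrangian E ρ Ω ι l) {H₀ H : Subgroup GQ} (hH₀ : H₀ = KK t t')
    (hT : Relation.ReflTransGen (Step ι) H₀ H) {r : ℕ} (h : Dim ρ s H ι l r) :
    Even r := by
  subst hH₀
  have hFl : Pool.Agent.Z384.Fld (p * q) := hF.c1
  have hsq := sq_of hFl.ne_zero hs
  obtain ⟨r₀, h1, h2⟩ := tower (two_ne A E) hE hsq hT h
  obtain ⟨r₁, g1, -, -, z, g2, g3, g4⟩ := evenK hF hs ht ht' hA hρ hΩ hl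
  have hD : Dim ρ s (KK t t') ι l r₁ := ⟨z, g2, g3, g4⟩
  have e := dim_unique hsq h1 hD
  rw [e] at h2
  rw [Nat.even_iff] at g1 h2 ⊢
  omega

end main

end Pool.Agent.H94BQ.T
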